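import Pool.Agent.U637.OP.P6

/-!
# MP_83e36b_nt: weak approximation for 100% of the systems `N_{Kᵢ/ℚ}(zᵢ) = cᵢ ∏_{j ∈ A(φ(i))} (f_j(t) + k_j)`
# with overlapping products, and for all real points

Let `f_1, …, f_s` be any nonconstant integral polynomials in one variable `t`, let `A(y)`, `y < e`, be any
nonempty subsets of `{1, …, s}`, which may overlap, let `φ` be a map from the indices `i < r` to the indices
`y`, let the `cᵢ` be any nonzero integers, and let the `Kᵢ`, `i < r`, be subfields of a cyclotomic field, of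
any degrees, with class numbers prime to their degrees, such that `-1` is a norm (for example, if the degree is
odd) or all norms are nonnegative. For `k` in `ℤ^s` let `V_k` be the variety

`N_{Kᵢ/ℚ}(zᵢ) = cᵢ ∏_{j ∈ A(φ(i))} (f_j(t) + k_j)`, `i < r`, with all the `f_j(t) + k_j` different from `0`.

It is smooth and geometrically rational, so that its smooth projective models are geometrically rationally
connected. Suppose that the compositum of the `Kᵢ` with `φ(i) = y` and that of the `Kᵢ` with `φ(i) ≠ y` for which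
`A(φ(i))` and `A(y)` have a common element are linearly disjoint, for all `y`. Let `T` be a finite set of primes
which contains the bad ones (those `≤ ∑ deg f_j`, or dividing the conductor `m`, a leading coefficient or a
`cᵢ`). We show that for 100% of the `k` in the boxes `|k_j| ≤ B X ^ deg f_j`, `X → ∞`, all families of points of
`V_k` over the `ℚ_p`, `p` in `T`, with coordinates at most `p ^ N` and `|f_j(t) + k_j| ≥ p ^ (-N)`, and of ANY
real point of `V_k` are approximated by rational points: `t` at `T`, with the signs of all the `f_j(t) + k_j` at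
the real place, and with `t` up to `X / B` if the real point has `|t| ≤ B X` and
`|f_j(t) + k_j| ≥ X ^ deg f_j / B`; and `zᵢ` at `T` for all `i` for which `Kᵢ` is cyclic over `ℚ`.

The starting theorem `ProductsOfShiftedPolynomials` is the case of disjoint products and of real points of the
level `B`; `MP_a19274_nt.FibrationsInNormTori` assumes in addition a condition at infinity, and real points of
level `B`. The Hasse principle for the same varieties is my `MP_e426f4_ag.OverlappingProducts`.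

Proof. The main step is `wxE` of `R479/NF/Sx3`, which gives rational points for 100% of the `k` and points of the
real level `B'`. For all but `ε` of the `k` any real point can be moved to one of the level `B'(ε)`
such that all the `f_j(t) + k_j` keep their signs (`U637/OP/P3`, `P4`).
-/

set_option autoImplicit false

namespace Pool.Agent.Results.MP_83e36b_nt.OverlappingProducts

open Finset Polynomial Filter Topology NumberField Module TensorProduct

instance (p : Nat.Primes) : Fact (p : ℕ).Prime := ⟨p.2⟩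

variable {L : Type} [Field L] [NumberField L] {r s e : ℕ}

/-- The class number of the field `K` is prime to its degree, and `-1` is a norm or no negative number is a
norm. -/
def Admissible (K : IntermediateField ℚ L) : Prop :=
  (classNumber K).Coprime (finrank ℚ K) ∧
    ((∃ x : K, Algebra.norm ℚ x = -1) ∨ ∀ x : K, 0 ≤ Algebra.norm ℚ x)

/-- Let `F_y` be the compositum of the fields `Kᵢ` of the equations with the product number `y`, and let
`G_y` be the compositum of the `Kᵢ` of the equations whose product is another one which has a factor in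
common with the product number `y`. For all `y` the intersection of `F_y` and `G_y` is `ℚ`. -/
def LinearlyDisjoint (K : Fin r → IntermediateField ℚ L) (A : Fin e → Finset (Fin s)) (φ : Fin r → Fin e) : Prop :=
  ∀ y, (⨆ i : {i : Fin r // φ i = y}, K i) ⊓
    (⨆ i : {i : Fin r // φ i ≠ y ∧ ∃ j, j ∈ A (φ i) ∧ j ∈ A y}, K i) = ⊥

/-- All `k` in `ℤ^s` with `|k_j| ≤ B X ^ deg f_j`. -/
noncomputable def box (f : Fin s → ℤ[X]) (B X : ℕ) : Finset (Fin s → ℤ) :=
  Fintype.piFinset fun j => Icc (-((B * X ^ (f j).natDegree : ℕ) : ℤ)) ((B * X ^ (f j).natDegree : ℕ) : ℤ)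

/-- The point `(t, z)` with coordinates in the field `F` lies on
`V_k : N_{Kᵢ/ℚ}(zᵢ) = cᵢ ∏_{j ∈ A(φ(i))} (f_j(t) + k_j)`, all `f_j(t) + k_j ≠ 0`. The coordinates `zᵢ` form
an element of `F ⊗ Kᵢ`. -/
def OnV (K : Fin r → IntermediateField ℚ L) (f : Fin s → ℤ[X]) (A : Fin e → Finset (Fin s)) (φ : Fin r → Fin e)
    (c : Fin r → ℤ) (k : Fin s → ℤ) {F : Type} [Field F] [Algebra ℚ F] (t : F)
    (z : (i : Fin r) → F ⊗[ℚ] (K i)) : Prop :=
  (∀ j, aeval t (f j) + (k j : F) ≠ 0) ∧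
    ∀ i, Algebra.norm F (z i) = (c i : F) * ∏ j ∈ A (φ i), (aeval t (f j) + (k j : F))

/-- The coordinates of an element of `F ⊗ K`, with respect to an integral basis of `K`. -/
noncomputable def coord (K : IntermediateField ℚ L) {F : Type} [Field F] [Algebra ℚ F] (z : F ⊗[ℚ] K)
    (j : Free.ChooseBasisIndex ℤ (𝓞 K)) : F :=
  (Algebra.TensorProduct.basis F (integralBasis K)).repr z j

/-- For all `p` in `T` the point `(t_p, z_p)` lies on `V_k`, its coordinates have absolute value at most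
`p ^ N` and `|f_j(t_p) + k_j| ≥ p ^ (-N)` for all `j`. -/
def GivenAt (K : Fin r → IntermediateField ℚ L) (f : Fin s → ℤ[X]) (A : Fin e → Finset (Fin s)) (φ : Fin r → Fin e)
    (c : Fin r → ℤ) (T : Finset Nat.Primes) (N : ℕ) (k : Fin s → ℤ)
    (t : (p : Nat.Primes) → ℚ_[(p : ℕ)]) (z : (p : Nat.Primes) → (i : Fin r) → ℚ_[(p : ℕ)] ⊗[ℚ] (K i)) : Prop :=
  ∀ p ∈ T, OnV K f A φ c k (t p) (z p) ∧ ‖t p‖ ≤ ((p : ℕ) : ℝ) ^ N ∧
    (∀ i j, ‖coord (K i) (z p i) j‖ ≤ ((p : ℕ) : ℝ) ^ N) ∧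
    ∀ j, (((p : ℕ) : ℝ) ^ N)⁻¹ ≤ ‖aeval (t p) (f j) + (k j : ℚ_[(p : ℕ)])‖

/-- There is a rational point `(q, y)` of `V_k` such that the `f_j(q) + k_j` have the signs of the
`f_j(tr) + k_j`, `|q - tr| ≤ X / B` if `|tr| ≤ B X` and `|f_j(tr) + k_j| ≥ X ^ deg f_j / B` for all `j`, `q` is
within `p ^ (-N)` of `t_p` for all `p` in `T`, and the coordinates of `yᵢ` are within `p ^ (-N)` of those of
`z_{p,i}` for all `p` in `T` and all `i` for which `Kᵢ` is cyclic over `ℚ`. -/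
def Approximated (K : Fin r → IntermediateField ℚ L) (f : Fin s → ℤ[X]) (A : Fin e → Finset (Fin s))
    (φ : Fin r → Fin e) (c : Fin r → ℤ) (T : Finset Nat.Primes) (N B X : ℕ) (k : Fin s → ℤ)
    (t : (p : Nat.Primes) → ℚ_[(p : ℕ)]) (z : (p : Nat.Primes) → (i : Fin r) → ℚ_[(p : ℕ)] ⊗[ℚ] (K i))
    (tr : ℝ) : Prop :=
  ∃ (q : ℚ) (y : (i : Fin r) → ℚ ⊗[ℚ] (K i)), OnV K f A φ c k q y ∧
    (∀ j, 0 < (aeval (q : ℝ) (f j) + (k j : ℝ)) * (aeval tr (f j) + (k j : ℝ))) ∧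
    (|tr| ≤ B * X → (∀ j, (X : ℝ) ^ (f j).natDegree ≤ B * |aeval tr (f j) + (k j : ℝ)|) →
      B * |(q : ℝ) - tr| ≤ X) ∧
    ∀ p ∈ T, ‖(q : ℚ_[(p : ℕ)]) - t p‖ ≤ (((p : ℕ) : ℝ) ^ N)⁻¹ ∧
      ∀ i, IsGalois ℚ (K i) → IsCyclic (K i ≃ₐ[ℚ] K i) → ∀ j,
        ‖((coord (K i) (y i) j : ℚ) : ℚ_[(p : ℕ)]) - coord (K i) (z p i) j‖ ≤ (((p : ℕ) : ℝ) ^ N)⁻¹

/-- Weak approximation for `V_k`, of level `N` at the primes of `T`, for all real points. -/
def WeakApproximation (K : Fin r → IntermediateField ℚ L) (f : Fin s → ℤ[X]) (A : Fin e → Finset (Fin s))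
    (φ : Fin r → Fin e) (c : Fin r → ℤ) (T : Finset Nat.Primes) (N B X : ℕ) (k : Fin s → ℤ) : Prop :=
  ∀ (t : (p : Nat.Primes) → ℚ_[(p : ℕ)]) (z : (p : Nat.Primes) → (i : Fin r) → ℚ_[(p : ℕ)] ⊗[ℚ] (K i))
    (tr : ℝ) (zr : (i : Fin r) → ℝ ⊗[ℚ] (K i)), GivenAt K f A φ c T N k t z → OnV K f A φ c k tr zr →
    Approximated K f A φ c T N B X k t z tr

lemma wa_of (K : Fin r → IntermediateField ℚ L) (hK : ∀ i, Admissible (K i)) (f : Fin s → ℤ[X])
    (A : Fin e → Finset (Fin s)) (φ : Fin r → Fin e) (c : Fin r → ℤ) (hc : ∀ i, c i ≠ 0) (T : Finset Nat.Primes)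
    (N B B' X E : ℕ) (hE : E = (2 * (∑ j, (f j).natDegree) + 3) * (2 * N + 2 * ∑ i, finrank ℚ (K i)) + 3)
    (hBB : B ≤ B') (k : Fin s → ℤ)
    (hmove : ∀ tr : ℝ, (∀ j, Pool.Agent.Y714.RC.PP f k j tr ≠ 0) → ∃ t' : ℝ, |t'| ≤ B' * X ∧
      (∀ j, (X : ℝ) ^ (f j).natDegree ≤ B' * |Pool.Agent.Y714.RC.PP f k j t'|) ∧
        ∀ j, 0 < Pool.Agent.Y714.RC.PP f k j t' * Pool.Agent.Y714.RC.PP f k j tr)
    (h : ∀ (t : (p : Nat.Primes) → ℚ_[(p : ℕ)]) (tr : ℝ), Pool.Agent.R479.NF.LcE K f A φ c T E k t →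
      Pool.Agent.R479.NF.RcE K f A φ c k tr → |tr| ≤ B' * X →
      (∀ j, (X : ℝ) ^ (f j).natDegree ≤ B' * |Pool.Agent.Y714.RC.PP f k j tr|) →
      Pool.Agent.R479.NF.GlE K f A φ c T E B' X k t tr) :
    WeakApproximation K f A φ c T N B X k := by
  intro t z tr0 zr hg1 hg2
  have hBBr : (B : ℝ) ≤ B' := by exact_mod_cast hBB
  -- a real point of bounded level
  obtain ⟨tr, hg3, hg4, hg5, hg6⟩ : ∃ tr : ℝ, |tr| ≤ B' * X ∧
      (∀ j, (X : ℝ) ^ (f j).natDegree ≤ B' * |Pool.Agent.Y714.RC.PP f k j tr|) ∧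
      (∀ j, 0 < Pool.Agent.Y714.RC.PP f k j tr * Pool.Agent.Y714.RC.PP f k j tr0) ∧
      (|tr0| ≤ B * X → (∀ j, (X : ℝ) ^ (f j).natDegree ≤ B * |Pool.Agent.Y714.RC.PP f k j tr0|) → tr = tr0) := by
    by_cases hlev : |tr0| ≤ B * X ∧ ∀ j, (X : ℝ) ^ (f j).natDegree ≤ B * |Pool.Agent.Y714.RC.PP f k j tr0|
    · refine ⟨tr0, hlev.1.trans (mul_le_mul_of_nonneg_right hBBr (Nat.cast_nonneg _)), fun j => ?_,
        fun j => mul_self_pos.2 (hg2.1 j), fun _ _ => rfl⟩
      exact (hlev.2 j).trans (mul_le_mul_of_nonneg_right hBBr (abs_nonneg _))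
    · obtain ⟨tr, h1, h2, h3⟩ := hmove tr0 hg2.1
      exact ⟨tr, h1, h2, h3, fun h4 h5 => absurd ⟨h4, h5⟩ hlev⟩
  have hNE : N ≤ E := by
    rw [hE]
    nlinarith [Nat.zero_le (∑ i, finrank ℚ (K i)), Nat.zero_le (∑ j, (f j).natDegree)]
  have hone : ∀ p : Nat.Primes, (1 : ℝ) < ((p : ℕ) : ℝ) := fun p => by exact_mod_cast p.2.one_lt
  have hRc := Pool.Agent.U637.OP.RcE_sign K f A φ c k k tr0 tr
    (Pool.Agent.U637.OP.RcE_of K (fun i => (hK i).2) f A φ c hc k tr0 hg2.1 fun i => ⟨zr i, hg2.2 i⟩) hg5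
  have hG := h t tr (by
    intro p hp
    have h1p := hone p
    have h0p : (0 : ℝ) < ((p : ℕ) : ℝ) := by linarith
    obtain ⟨h1, h2, -, h4⟩ := hg1 p hp
    refine ⟨h2.trans (pow_le_pow_right₀ h1p.le hNE), fun j => ?_, fun i => ⟨z p i, h1.2 i⟩⟩
    exact (inv_anti₀ (by positivity) (pow_le_pow_right₀ h1p.le hNE)).trans (h4 j)) hRc hg3 hg4
  obtain ⟨q, y, h1, h2, h3, h4⟩ := Pool.Agent.R479.NF.sxE_of K f A φ c hc T N B' X E hE k t z tr (by
    intro p hp
    obtain ⟨h1, h2, h3, h4⟩ := hg1 p hp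
    exact ⟨h2, h4, fun i => ⟨h1.2 i, fun j => h3 i j⟩⟩) B' hG
  refine ⟨q, fun i => (1 : ℚ) ⊗ₜ[ℚ] y i, ⟨fun j h0 => ?_, fun i => ?_⟩, fun j => ?_, fun h5 h6 => ?_, fun p hp =>
    ⟨(h4 p hp).1, fun i hc1 hc2 j => ?_⟩⟩
  · have h5 := h1 j
    have e : Pool.Agent.Y714.RC.PP f k j (q : ℝ) = ((aeval q (f j) + (k j : ℚ) : ℚ) : ℝ) := by
      unfold Pool.Agent.Y714.RC.PP
      have e2 : ((aeval q (f j) : ℚ) : ℝ) = aeval (q : ℝ) (f j) := by
        have := aeval_algebraMap_apply ℝ q (f j)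
        simp only [eq_ratCast] at this
        exact this.symm
      push_cast
      rw [e2]
    rw [e, h0, Rat.cast_zero, zero_mul] at h5
    exact lt_irrefl _ h5
  · rw [Pool.Agent.R479.NF.norm_one_tmul_rat, h3 i]
    rfl
  · exact Pool.Agent.U637.OP.sign_trans _ _ _ (h1 j) (hg5 j)
  · have e := hg6 h5 h6
    rw [← e]
    exact (mul_le_mul_of_nonneg_right hBBr (abs_nonneg _)).trans h2
  · have h5 := (h4 p hp).2 i hc1 hc2.exists_generator j
    have e : ((coord (K i) ((1 : ℚ) ⊗ₜ[ℚ] y i) j : ℚ) : ℚ_[(p : ℕ)]) =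
        Pool.Agent.R479.NF.cd (p : ℕ) ((1 : ℚ_[(p : ℕ)]) ⊗ₜ[ℚ] (y i) : Pool.Agent.R479.NF.Ap (K i) (p : ℕ)) j := by
      unfold coord Pool.Agent.R479.NF.cd
      rw [Basis.equivFun_apply, Algebra.TensorProduct.basis_repr_tmul, Algebra.TensorProduct.basis_repr_tmul]
      simp
    rw [e]
    exact h5

lemma tendsto_of (f : Fin s → ℤ[X]) (B : ℕ) (hB : 1 ≤ B) (P : ℕ → (Fin s → ℤ) → Prop)
    [∀ X, DecidablePred (P X)]
    (hmain : ∀ ε : ℝ, 0 < ε → ∃ X0 : ℕ, ∀ X : ℕ, X0 ≤ X →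
      (#{k ∈ box f B X | P X k} : ℝ) ≤ ε * ∏ j, (X : ℝ) ^ (f j).natDegree) :
    Tendsto (fun X : ℕ => (#{k ∈ box f B X | P X k} : ℝ) / #(box f B X)) atTop (𝓝 0) := by
  rw [Metric.tendsto_atTop]
  intro ε hε
  obtain ⟨X0, h⟩ := hmain (ε / 2) (by linarith)
  refine ⟨max X0 1, fun X hX => ?_⟩
  have hB1 := h X ((le_max_left _ _).trans hX)
  have hX1 : 1 ≤ X := (le_max_right _ _).trans hX
  have hbox : (∏ j, (X : ℝ) ^ (f j).natDegree) ≤ #(box f B X) := Pool.Agent.R479.NF.box_card f B X hB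
  have hPr : (0 : ℝ) < ∏ j, (X : ℝ) ^ (f j).natDegree := prod_pos fun j _ => by
    have : (0 : ℝ) < X := by exact_mod_cast hX1
    positivity
  have hbox0 : (0 : ℝ) < #(box f B X) := lt_of_lt_of_le hPr hbox
  rw [dist_zero_right, Real.norm_of_nonneg (div_nonneg (Nat.cast_nonneg _) hbox0.le), div_lt_iff₀ hbox0]
  calc (#{k ∈ box f B X | P X k} : ℝ) ≤ ε / 2 * ∏ j, (X : ℝ) ^ (f j).natDegree := hB1
    _ ≤ ε / 2 * #(box f B X) := mul_le_mul_of_nonneg_left hbox (by linarith)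
    _ < ε * #(box f B X) := mul_lt_mul_of_pos_right (by linarith) hbox0

open Classical in
/-- **Weak approximation for 100% of the `V_k`.** Here `L` is the `m`-th cyclotomic field, and the `Kᵢ` are any of
its subfields. The proportion of the `k` in the boxes `|k_j| ≤ B X ^ deg f_j` for which `V_k` does not satisfy
weak approximation of level `N` at `T`, for all real points, tends to `0` for `X → ∞`; here `T` is any finite set
of primes which contains the bad ones. -/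
theorem result (m : ℕ) [NeZero m] [IsCyclotomicExtension {m} ℚ L] (K : Fin r → IntermediateField ℚ L)
    (hK : ∀ i, Admissible (K i)) (f : Fin s → ℤ[X]) (hf : ∀ j, 1 ≤ (f j).natDegree)
    (A : Fin e → Finset (Fin s)) (hA : ∀ y, (A y).Nonempty) (φ : Fin r → Fin e)
    (hLD : LinearlyDisjoint K A φ) (c : Fin r → ℤ) (hc : ∀ i, c i ≠ 0) (B : ℕ) (hB : 1 ≤ B)
    (T : Finset Nat.Primes) (hT : ∀ p : Nat.Primes, ((p : ℕ) ≤ ∑ j, (f j).natDegree ∨ (p : ℕ) ∣ m ∨
        (∃ j, ((p : ℕ) : ℤ) ∣ (f j).leadingCoeff) ∨ ∃ i, ((p : ℕ) : ℤ) ∣ c i) → p ∈ T) (N : ℕ) :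
    Tendsto (fun X : ℕ =>
      (#{k ∈ box f B X | ¬ WeakApproximation K f A φ c T N B X k} : ℝ) / #(box f B X)) atTop (𝓝 0) := by
  choose β hβ using hA
  obtain ⟨E, hE⟩ : ∃ E, E = (2 * (∑ j, (f j).natDegree) + 3) * (2 * N + 2 * ∑ i, finrank ℚ (K i)) + 3 :=
    ⟨_, rfl⟩
  apply tendsto_of f B hB (fun X k => ¬ WeakApproximation K f A φ c T N B X k)
  intro ε hε
  obtain ⟨B', X2, hB', hreal⟩ := Pool.Agent.U637.OP.densR f hf B hB (ε / 2) (by positivity)
  obtain ⟨X0, h⟩ := Pool.Agent.R479.NF.wxE m K (fun i => (hK i).1) (fun i => (hK i).2) f hf A φ hLD β hβ c hc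
    T hT E (max B B') (hB.trans (le_max_left _ _)) (ε / 2) (by positivity)
  refine ⟨max X0 X2, fun X hX => ?_⟩
  obtain ⟨Bad, hB1, hB2⟩ := h X ((le_max_left _ _).trans hX)
  have hreal := hreal X ((le_max_right _ _).trans hX)
  obtain ⟨BR, hBR⟩ : ∃ BR, BR = (Pool.Agent.R479.NF.box f B X).filter (fun k => ∃ t : ℝ,
      (∀ j, Pool.Agent.Y714.RC.PP f k j t ≠ 0) ∧
      ¬ ∃ t' : ℝ, |t'| ≤ B' * X ∧ (∀ j, (X : ℝ) ^ (f j).natDegree ≤ B' * |Pool.Agent.Y714.RC.PP f k j t'|) ∧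
        ∀ j, 0 < Pool.Agent.Y714.RC.PP f k j t' * Pool.Agent.Y714.RC.PP f k j t) := ⟨_, rfl⟩
  rw [← hBR] at hreal
  have hBm : ((B' : ℕ) : ℝ) ≤ ((max B B' : ℕ) : ℝ) := by exact_mod_cast le_max_right _ _
  have hsub : {k ∈ box f B X | ¬ WeakApproximation K f A φ c T N B X k} ⊆ Bad ∪ BR := by
    intro k hk
    rw [mem_filter] at hk
    obtain ⟨hkX, hk⟩ := hk
    by_contra hcon
    rw [mem_union, not_or] at hcon
    apply hk
    refine wa_of K hK f A φ c hc T N B (max B B') X E hE (le_max_left _ _) k (fun tr htr => ?_)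
      (hB2 k (fun j => ?_) hcon.1)
    · by_contra h5
      apply hcon.2
      rw [hBR]
      refine mem_filter.2 ⟨hkX, tr, htr, fun ⟨t', h6, h7, h8⟩ => h5 ⟨t', ?_, fun j => ?_, h8⟩⟩
      · exact h6.trans (mul_le_mul_of_nonneg_right hBm (Nat.cast_nonneg _))
      · exact (h7 j).trans (mul_le_mul_of_nonneg_right hBm (abs_nonneg _))
    · have h5 := abs_le.2 (mem_Icc.1 (Fintype.mem_piFinset.1 hkX j))
      refine h5.trans ?_
      have h6 : B * X ^ (f j).natDegree ≤ max B B' * X ^ (f j).natDegree := Nat.mul_le_mul_right _ (le_max_left _ _)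
      exact_mod_cast h6
  have h2 : (#{k ∈ box f B X | ¬ WeakApproximation K f A φ c T N B X k} : ℝ) ≤ #Bad + #BR := by
    exact_mod_cast (card_le_card hsub).trans (card_union_le _ _)
  linarith

end Pool.Agent.Results.MP_83e36b_nt.OverlappingProducts
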