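import Mathlib
import Pool.Agent.U424.DQ.AllN
import Pool.Agent.U424.DQ.FinN

/-!
# Weak approximation for 100% of the diagonal quadric bundles over `ℙⁿ`, `n ≥ 2`, of arbitrary relative
# dimensions, and of their fibre products (helper424 and co-authors)

Let `n ≥ 2`, `r ≥ 0`, and `m_i ≥ 3`, `d_i ≥ 1` for `i < r`. Let `F_{i,l}`, `i < r`, `l < m_i`, be forms of degree
`d_i` in `x_0, …, x_n` with integral coefficients. They define

  `X_F : F_{i,0}(x) z_{i,0}² + ⋯ + F_{i,m_i-1}(x) z_{i,m_i-1}² = 0`, `i < r`,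

in `ℙⁿ × ℙ^(m_0 - 1) × ⋯ × ℙ^(m_(r-1) - 1)`, a fibre product over `ℙⁿ` of diagonal quadric bundles, for
`r = 1` a diagonal hypersurface of bidegree `(d, 2)`. If `X_F` is smooth of dimension `n + ∑ (m_i - 2)`,
it is geometrically rationally connected.

We order the families `F` by the maximum `H` of the absolute values of their coefficients. Almost all
`X_F` are smooth, a positive proportion has points over the real numbers and over all `ℚ_p`, and for
every `M ≥ 1`, 100% of the smooth `X_F` with points everywhere locally satisfy weak approximation to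
precision `1 / M` at the real place and at all primes up to `M`: every family of local points of `X_F`,
in particular of points on the degenerate fibres, is approximated by a rational point.

The case `m_i = 3` of conic bundles is a result of the starting library
(`Pool/Agent/Results/MP_83e36b_nt/ConicBundlesOverPn.lean`, helper546 and helper718), whose proof is
followed here.

Proof. If the gradients of the forms vanishing at a point of `ℙⁿ` are linearly independent at all points,
every local point is near to stable positions: base points such that over all base points near them, for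
all families near `F`, there are local points near the given one. The families for which
this is not so satisfy an algebraic equation, which is rarely small in the real and the `p`-adic metrics.
So by compactness there are finitely many positions, for all but `ε` of the families. For all positions
at the real place and the primes up to `M`, one position at the primes between `M` and a large `P`, and
every residue class of families we choose a line through an integral point near the position. For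
almost all restrictions to the line the theorem for `ℙ¹` gives a rational base point over which there
are rational points and which is near the position (prime values of all the forms up to given factors,
Legendre symbols for `m_i = 3`, and the theorem of Hasse and Minkowski, proved for `m_i ≥ 4`), and weak
approximation for quadrics gives the rational point of `X_F`.

Parts of the proof are due to helper571, helper465, helper186, helper863, helper784, helper882,
helper293, helper373, helper113, helper460, helper333, helper446 (`Pool/Agent/U424/DQ/All.lean`), and to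
helper319, helper129, helper356, helper402, helper898, helper140, helper594, helper460
(`Pool/Agent/U424/DQ/AllN.lean`).
-/

set_option autoImplicit false

namespace Pool.Agent.Results.MP_83e36b_nt.QuadricBundlesOverPn

open Filter Topology MvPolynomial

/-- The families of forms `F ⟨i, l⟩` of degree `d i` in `n + 1` variables whose coefficients are integers
of absolute value at most `H`. -/
def Families (n : ℕ) {r : ℕ} (m : Fin r → ℕ) (d : Fin r → ℕ) (H : ℕ) :
    Set ((Σ i : Fin r, Fin (m i)) → MvPolynomial (Fin (n + 1)) ℤ) :=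
  {F | ∀ k, (F k).IsHomogeneous (d k.1) ∧ ∀ a, |(F k).coeff a| ≤ (H : ℤ)}

/-- `(x, z)` are homogeneous coordinates of a point of `X_F` over the field `K`. -/
def IsPoint {n r : ℕ} {m : Fin r → ℕ} (F : (Σ i : Fin r, Fin (m i)) → MvPolynomial (Fin (n + 1)) ℤ)
    {K : Type} [Field K] (x : Fin (n + 1) → K) (z : (i : Fin r) → Fin (m i) → K) : Prop :=
  x ≠ 0 ∧ ∀ i, z i ≠ 0 ∧ ∑ l, aeval x (F ⟨i, l⟩) * z i l ^ 2 = 0

/-- `X_F` is a smooth complete intersection: at every point over a field of characteristic zero the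
differentials of the `r` equations are linearly independent. The partial derivative of the `i`-th
equation with respect to `z i l` is twice the product `F ⟨i, l⟩ (x) z i l`. -/
def Smooth {n r : ℕ} {m : Fin r → ℕ} (F : (Σ i : Fin r, Fin (m i)) → MvPolynomial (Fin (n + 1)) ℤ) :
    Prop :=
  ∀ (K : Type) [Field K] [CharZero K] (x : Fin (n + 1) → K) (z : (i : Fin r) → Fin (m i) → K),
    IsPoint F x z → ∀ t : Fin r → K, t ≠ 0 →
      (∃ a, ∑ i, t i * ∑ l, aeval x (pderiv a (F ⟨i, l⟩)) * z i l ^ 2 ≠ 0) ∨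
      ∃ i l, t i * (aeval x (F ⟨i, l⟩) * z i l) ≠ 0

/-- `X_F` has a point over the field `K`. -/
def HasPoint {n r : ℕ} {m : Fin r → ℕ} (F : (Σ i : Fin r, Fin (m i)) → MvPolynomial (Fin (n + 1)) ℤ)
    (K : Type) [Field K] : Prop :=
  ∃ (x : Fin (n + 1) → K) (z : (i : Fin r) → Fin (m i) → K), IsPoint F x z

/-- `X_F` has points over the real numbers and over all the `p`-adic fields. -/
def LocallySoluble {n r : ℕ} {m : Fin r → ℕ}
    (F : (Σ i : Fin r, Fin (m i)) → MvPolynomial (Fin (n + 1)) ℤ) : Prop :=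
  HasPoint F ℝ ∧ ∀ (p : ℕ) [Fact p.Prime], HasPoint F ℚ_[p]

/-- The points of the projective space with the homogeneous coordinates `a` and `b` have distance at most
`δ`. -/
def Near {K : Type} [NormedField K] {s : ℕ} (δ : ℝ) (a b : Fin s → K) : Prop :=
  ∃ l : K, l ≠ 0 ∧ ∀ j, ‖a j - l * b j‖ ≤ ‖a‖ * δ

/-- Weak approximation to precision `1 / M` at the real place and at the primes up to `M`: for all points
`(X p, Z p)` of `X_F` over the `p`-adic fields and `(XR, ZR)` over the real numbers there is a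
rational point `(x, z)` near them. -/
def WeakApproximation {n r : ℕ} {m : Fin r → ℕ} (M : ℕ)
    (F : (Σ i : Fin r, Fin (m i)) → MvPolynomial (Fin (n + 1)) ℤ) : Prop :=
  ∀ (X : (p : Nat.Primes) → Fin (n + 1) → ℚ_[(p : ℕ)])
    (Z : (p : Nat.Primes) → (i : Fin r) → Fin (m i) → ℚ_[(p : ℕ)])
    (XR : Fin (n + 1) → ℝ) (ZR : (i : Fin r) → Fin (m i) → ℝ),
    (∀ p, IsPoint F (X p) (Z p)) → IsPoint F XR ZR →
    ∃ (x : Fin (n + 1) → ℚ) (z : (i : Fin r) → Fin (m i) → ℚ), IsPoint F x z ∧
      (∀ p : Nat.Primes, (p : ℕ) ≤ M →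
        Near (1 / (M : ℝ)) (X p) (fun j => (x j : ℚ_[(p : ℕ)])) ∧
        ∀ i, Near (1 / (M : ℝ)) (Z p i) (fun j => (z i j : ℚ_[(p : ℕ)]))) ∧
      Near (1 / (M : ℝ)) XR (fun j => (x j : ℝ)) ∧
        ∀ i, Near (1 / (M : ℝ)) (ZR i) (fun j => (z i j : ℝ))

open Pool.Agent.U424.DQ Pool.Agent.N665.PN in
theorem isPoint_iff {n r : ℕ} {m : Fin r → ℕ} {e : (Σ i : Fin r, Fin (m i)) → ℕ}
    {F : (Σ i : Fin r, Fin (m i)) → MvPolynomial (Fin (n + 1)) ℤ}
    (hF : ∀ k, (F k).IsHomogeneous (e k + 1)) {K : Type} [Field K] (x : Fin (n + 1) → K)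
    (z : (i : Fin r) → Fin (m i) → K) :
    IsPoint F x z ↔ IsP (Pool.Agent.N546.PN.ic
      (fun k => (cof (F k) : Pool.Agent.N546.PN.Mon n (e k + 1) → ℤ)) K) x z := by
  unfold IsPoint IsP
  refine and_congr Iff.rfl (forall_congr' fun i => and_congr Iff.rfl ?_)
  simp only [fun (l : Fin (m i)) => conv_val n _ _ (hF ⟨i, l⟩) K x]
  exact Iff.rfl

open Pool.Agent.U424.DQ Pool.Agent.N665.PN in
theorem smooth_iff {n r : ℕ} {m : Fin r → ℕ} {e : (Σ i : Fin r, Fin (m i)) → ℕ}
    {F : (Σ i : Fin r, Fin (m i)) → MvPolynomial (Fin (n + 1)) ℤ}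
    (hF : ∀ k, (F k).IsHomogeneous (e k + 1)) :
    Smooth F ↔ ∀ (K : Type) [Field K] [CharZero K],
      SmK (Pool.Agent.N546.PN.ic
        (fun k => (cof (F k) : Pool.Agent.N546.PN.Mon n (e k + 1) → ℤ)) K) := by
  unfold Smooth SmK
  refine forall_congr' fun K => forall_congr' fun _ => forall_congr' fun _ => forall_congr' fun x =>
    forall_congr' fun z => ?_
  rw [isPoint_iff hF]
  refine forall_congr' fun _ => forall_congr' fun t => forall_congr' fun _ => ?_
  simp only [fun (k : Σ i : Fin r, Fin (m i)) (a : Fin (n + 1)) => conv_dval n _ _ (hF k) K x a,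
    fun (k : Σ i : Fin r, Fin (m i)) => conv_val n _ _ (hF k) K x]
  exact Iff.rfl

open Pool.Agent.U424.DQ Pool.Agent.N665.PN in
theorem hasPoint_iff {n r : ℕ} {m : Fin r → ℕ} {e : (Σ i : Fin r, Fin (m i)) → ℕ}
    {F : (Σ i : Fin r, Fin (m i)) → MvPolynomial (Fin (n + 1)) ℤ}
    (hF : ∀ k, (F k).IsHomogeneous (e k + 1)) (K : Type) [Field K] :
    HasPoint F K ↔ ∃ x z, IsP (Pool.Agent.N546.PN.ic
      (fun k => (cof (F k) : Pool.Agent.N546.PN.Mon n (e k + 1) → ℤ)) K) x z := by
  unfold HasPoint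
  exact exists_congr fun x => exists_congr fun z => isPoint_iff hF x z

open Pool.Agent.U424.DQ Pool.Agent.N665.PN in
theorem wa_iff {n r : ℕ} {m : Fin r → ℕ} {e : (Σ i : Fin r, Fin (m i)) → ℕ}
    {F : (Σ i : Fin r, Fin (m i)) → MvPolynomial (Fin (n + 1)) ℤ}
    (hF : ∀ k, (F k).IsHomogeneous (e k + 1)) (M : ℕ) :
    WeakApproximation M F ↔ WAmM M
      (fun k => (cof (F k) : Pool.Agent.N546.PN.Mon n (e k + 1) → ℤ)) := by
  have key : ∀ {K : Type} [Field K] (x : Fin (n + 1) → K) (z : (i : Fin r) → Fin (m i) → K),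
      IsPoint F x z ↔ (x ≠ 0 ∧ OnM (fun k => Pool.Agent.N546.PN.val (Pool.Agent.N546.PN.ic
        (fun k => (cof (F k) : Pool.Agent.N546.PN.Mon n (e k + 1) → ℤ)) K k) x) z) := by
    intro K _ x z
    rw [isPoint_iff hF x z]
    exact Iff.rfl
  unfold WeakApproximation WAmM
  constructor
  · intro h X Z XR ZR h1 h2 h3
    obtain ⟨x, z, g1, g2⟩ := h X Z XR ZR (fun p => (key _ _).2 (h1 p)) ((key _ _).2 ⟨h2, h3⟩)
    exact ⟨x, z, ((key _ _).1 g1).1, ((key _ _).1 g1).2, g2⟩
  · intro h X Z XR ZR h1 h2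
    obtain ⟨x, z, g1, g1', g2⟩ := h X Z XR ZR (fun p => (key _ _).1 (h1 p)) ((key _ _).1 h2).1
      ((key _ _).1 h2).2
    exact ⟨x, z, (key _ _).2 ⟨g1, g1'⟩, g2⟩

/-- **Weak approximation for 100% of the diagonal quadric bundles over `ℙⁿ` and their fibre
products.** -/
theorem result (n : ℕ) (hn : 2 ≤ n) {r : ℕ} (m : Fin r → ℕ) (hm : ∀ i, 3 ≤ m i) (d : Fin r → ℕ)
    (hd : ∀ i, 1 ≤ d i) :
    (∃ c₀ : ℝ, 0 < c₀ ∧ ∀ᶠ H : ℕ in atTop, c₀ * ((Families n m d H).ncard : ℝ) ≤
      (({F | F ∈ Families n m d H ∧ Smooth F ∧ LocallySoluble F} : Set _).ncard : ℝ)) ∧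
    ∀ M : ℕ, 1 ≤ M → Tendsto (fun H : ℕ =>
      (({F | F ∈ Families n m d H ∧ Smooth F ∧ LocallySoluble F ∧ WeakApproximation M F} :
        Set _).ncard : ℝ) /
      (({F | F ∈ Families n m d H ∧ Smooth F ∧ LocallySoluble F} : Set _).ncard : ℝ))
      atTop (𝓝 1) := by
  classical
  obtain ⟨d', rfl⟩ : ∃ d' : Fin r → ℕ, d = fun i => d' i + 1 :=
    ⟨fun i => d i - 1, funext fun i => (Nat.sub_add_cancel (hd i)).symm⟩
  obtain ⟨e, he'⟩ : ∃ e : (Σ i : Fin r, Fin (m i)) → ℕ, e = fun k => d' k.1 := ⟨_, rfl⟩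
  have he'' : ∀ k, d' k.1 = e k := fun k => by rw [he']
  have he : ∀ i l l', e ⟨i, l⟩ % 2 = e ⟨i, l'⟩ % 2 := by
    intro i l l'
    rw [he']
  obtain ⟨⟨c₀, hc₀, h1⟩, -⟩ := Pool.Agent.U424.DQ.fin_count (n := n) (r := r) (m := m) (e := e)
    Pool.Agent.U424.DQ.mainag Pool.Agent.U424.DQ.mainbg Pool.Agent.U424.DQ.typm
    (fun K _ => Pool.Agent.U424.DQ.fillm K) hm he hn
  have e1 : ∀ H : ℕ, ({F | F ∈ Families n m (fun i => d' i + 1) H ∧ Smooth F ∧ LocallySoluble F} :
      Set ((Σ i : Fin r, Fin (m i)) → MvPolynomial (Fin (n + 1)) ℤ)).ncard =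
      ((Pool.Agent.N546.PN.bx n e H).filter (fun c =>
        (∀ (K : Type) [Field K] [CharZero K], Pool.Agent.U424.DQ.SmK (Pool.Agent.N546.PN.ic c K)) ∧
        ((∃ x z, Pool.Agent.U424.DQ.IsP (Pool.Agent.N546.PN.ic c ℝ) x z) ∧
          ∀ (p : ℕ) [Fact p.Prime], ∃ x z,
            Pool.Agent.U424.DQ.IsP (Pool.Agent.N546.PN.ic c ℚ_[p]) x z))).card := by
    intro H
    refine Eq.trans ?_ ((Pool.Agent.N665.PN.conv_card n (Σ i : Fin r, Fin (m i)) e H
      (fun c => (∀ (K : Type) [Field K] [CharZero K],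
        Pool.Agent.U424.DQ.SmK (Pool.Agent.N546.PN.ic c K)) ∧
        ((∃ x z, Pool.Agent.U424.DQ.IsP (Pool.Agent.N546.PN.ic c ℝ) x z) ∧
          ∀ (p : ℕ) [Fact p.Prime], ∃ x z,
            Pool.Agent.U424.DQ.IsP (Pool.Agent.N546.PN.ic c ℚ_[p]) x z))).trans (by congr!))
    congr 1
    ext F
    simp only [Set.mem_ofPred_eq, Families, he'']
    refine and_congr_right fun hF => ?_
    have hF' : ∀ k, (F k).IsHomogeneous (e k + 1) := fun k => (hF k).1
    rw [smooth_iff (e := e) hF']
    refine and_congr Iff.rfl ?_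
    unfold LocallySoluble
    rw [hasPoint_iff (e := e) hF' ℝ]
    refine and_congr Iff.rfl (forall_congr' fun p => forall_congr' fun _ => ?_)
    exact hasPoint_iff (e := e) hF' ℚ_[p]
  have e2 : ∀ (M H : ℕ), ({F | F ∈ Families n m (fun i => d' i + 1) H ∧ Smooth F ∧
        LocallySoluble F ∧ WeakApproximation M F} :
      Set ((Σ i : Fin r, Fin (m i)) → MvPolynomial (Fin (n + 1)) ℤ)).ncard =
      ((Pool.Agent.N546.PN.bx n e H).filter (fun c =>
        (∀ (K : Type) [Field K] [CharZero K], Pool.Agent.U424.DQ.SmK (Pool.Agent.N546.PN.ic c K)) ∧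
        ((∃ x z, Pool.Agent.U424.DQ.IsP (Pool.Agent.N546.PN.ic c ℝ) x z) ∧
          ∀ (p : ℕ) [Fact p.Prime], ∃ x z,
            Pool.Agent.U424.DQ.IsP (Pool.Agent.N546.PN.ic c ℚ_[p]) x z) ∧
        Pool.Agent.U424.DQ.WAmM M c)).card := by
    intro M H
    refine Eq.trans ?_ ((Pool.Agent.N665.PN.conv_card n (Σ i : Fin r, Fin (m i)) e H
      (fun c => (∀ (K : Type) [Field K] [CharZero K],
        Pool.Agent.U424.DQ.SmK (Pool.Agent.N546.PN.ic c K)) ∧
        ((∃ x z, Pool.Agent.U424.DQ.IsP (Pool.Agent.N546.PN.ic c ℝ) x z) ∧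
          ∀ (p : ℕ) [Fact p.Prime], ∃ x z,
            Pool.Agent.U424.DQ.IsP (Pool.Agent.N546.PN.ic c ℚ_[p]) x z) ∧
        Pool.Agent.U424.DQ.WAmM M c)).trans (by congr!))
    congr 1
    ext F
    simp only [Set.mem_ofPred_eq, Families, he'']
    refine and_congr_right fun hF => ?_
    have hF' : ∀ k, (F k).IsHomogeneous (e k + 1) := fun k => (hF k).1
    rw [smooth_iff (e := e) hF']
    refine and_congr Iff.rfl ?_
    unfold LocallySoluble
    rw [hasPoint_iff (e := e) hF' ℝ, wa_iff (e := e) hF' M]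
    refine and_congr (and_congr Iff.rfl (forall_congr' fun p => forall_congr' fun _ => ?_)) Iff.rfl
    exact hasPoint_iff (e := e) hF' ℚ_[p]
  have e3 : ∀ H : ℕ, (Families n m (fun i : Fin r => d' i + 1) H).ncard =
      (Pool.Agent.N546.PN.bx n e H).card := by
    intro H
    have h3 := Pool.Agent.N665.PN.conv_card n (Σ i : Fin r, Fin (m i)) e H (fun _ => True)
    rw [Finset.filter_true] at h3
    rw [← h3]
    congr 1
    ext F
    simp [Families, he'']
  constructor
  · refine ⟨c₀, hc₀, ?_⟩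
    filter_upwards [h1] with H h3
    rw [e1 H, e3 H]
    convert h3
  · intro M hM
    have h2 := Pool.Agent.U424.DQ.fin_countW (n := n) (r := r) (m := m) (e := e)
      Pool.Agent.U424.DQ.mainag Pool.Agent.U424.DQ.mainbg Pool.Agent.U424.DQ.typm
      (fun K _ => Pool.Agent.U424.DQ.fillm K) Pool.Agent.U424.DQ.mainnm hm
      (fun i l l' => by rw [he']) hn M hM
    refine h2.congr fun H => ?_
    rw [e1 H, e2 M H]

end Pool.Agent.Results.MP_83e36b_nt.QuadricBundlesOverPn
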